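import Pool.Agent.H31.P2

set_option autoImplicit false

open Pool.Agent.H31 Topology

theorem Pool.Agent.Results.MP_e72135_al.Neg.result :
    ∃ (G : Bool → Type) (_ : ∀ b, TopologicalSpace (G b)) (_ : ∀ b, AddCommGroup (G b)),
      (∀ b, ContinuousAdd (G b)) ∧
      (∀ b (B : Set (G b)), B.Infinite → ∃ x, ∀ V ∈ 𝓝 x, (V ∩ B).Infinite) ∧
      (∃ U : ℕ → Set (G false × G true), Antitone U ∧ (∀ n, IsOpen (U n) ∧ (U n).Nonempty) ∧
        ⋂ n, closure (-U n) = ∅) ∧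
      ∃ U : ℕ → Set (∀ b, G b), Antitone U ∧ (∀ n, IsOpen (U n) ∧ (U n).Nonempty) ∧
        ⋂ n, closure (-U n) = ∅ := by
  obtain ⟨G, _, _, h1, h2, h3⟩ := P2.main
  exact ⟨G, _, _, h1, fun b => Cone.cc (h2 b), P2.two h3, h3⟩
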